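import Pool.Agent.TH901.H2A.Stm

set_option autoImplicit false
set_option linter.unusedSectionVars false

/-!
# ARH2-PAIR: pairs of commuting simple reflections and their conjugates
-/

namespace Pool.Agent.TH111.H2A

open Pool.Agent.Helper741 Pool.Agent.TH901.H2A CoxeterSystem

/-! ### restriction of a Coxeter matrix -/

section

variable {B : Type} [Fintype B] [DecidableEq B] {M : CoxeterMatrix B} {W : Type} [Group W]
  (cs : CoxeterSystem M W)

theorem ee_inj {a b : B} (h : (ee a : B → ℝ) = ee b) : a = b := by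
  by_contra hab
  have h1 := congrFun h a
  rw [show (ee a : B → ℝ) a = 1 from Pi.single_eq_same _ _,
    show (ee b : B → ℝ) a = 0 from Pi.single_eq_of_ne hab _] at h1
  exact one_ne_zero h1

theorem ee_not_nonpos (a : B) : ¬ (ee a : B → ℝ) ≤ 0 := by
  intro h
  have h1 := h a
  rw [show (ee a : B → ℝ) a = 1 from Pi.single_eq_same _ _] at h1
  have h2 : (1 : ℝ) ≤ 0 := h1
  linarith

theorem bil_self (a : B) : bil M (ee a) (ee a) = 2 := by
  rw [bil_ee_left, coroot_ee, cc_self]
  norm_num

theorem geo_sign (w : W) (t : B) : 0 ≤ geo cs w (ee t) ∨ geo cs w (ee t) ≤ 0 := by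
  rcases cs.length_mul_simple w t with h | h
  · exact Or.inl (geo_nonneg cs w t (by omega))
  · exact Or.inr (geo_nonpos cs w t (by omega))

/-- the standard parabolic subgroup -/
def WK (K : Finset B) : Subgroup W := Subgroup.closure (cs.simple '' (K : Set B))

theorem geo_supp (K : Finset B) {x : W} (hx : x ∈ WK cs K) : ∀ (v : B → ℝ) {j : B}, j ∉ K →
    geo cs x v j = v j := by
  unfold WK at hx
  induction hx using Subgroup.closure_induction with
  | mem x hx =>
    intro v j hj
    obtain ⟨i, hi, rfl⟩ := hx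
    rw [geo_simple, sg_apply, Pi.sub_apply, Pi.smul_apply,
      show (ee i : B → ℝ) j = 0 from Pi.single_eq_of_ne (by
        rintro rfl
        exact hj hi) _, smul_zero, sub_zero]
  | one => intro v j _; simp
  | mul x y _ _ hx hy => intro v j hj; rw [map_mul, Module.End.mul_apply, hx _ hj, hy _ hj]
  | inv x _ hx =>
    intro v j hj
    have h1 := hx (geo cs x⁻¹ v) hj
    rw [geo_apply_inv] at h1
    exact h1.symm

theorem min_rep (K : Finset B) (g : W) : ∃ v x : W, g = v * x ∧ x ∈ WK cs K ∧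
    (∀ y ∈ WK cs K, cs.length v ≤ cs.length (g * y)) ∧
    ∀ t ∈ K, cs.length v < cs.length (v * cs.simple t) := by
  obtain ⟨y, hy, hmin⟩ : ∃ y ∈ WK cs K, ∀ z ∈ WK cs K, cs.length (g * y) ≤ cs.length (g * z) := by
    have hne : (Set.Nonempty {n | ∃ y ∈ WK cs K, cs.length (g * y) = n}) := ⟨_, 1, one_mem _, rfl⟩
    obtain ⟨y, hy, hy2⟩ := Nat.sInf_mem hne
    exact ⟨y, hy, fun z hz => hy2 ▸ Nat.sInf_le ⟨z, hz, rfl⟩⟩
  refine ⟨g * y, y⁻¹, by group, inv_mem hy, hmin, fun t ht => ?_⟩
  have h1 := hmin (y * cs.simple t) (mul_mem hy (Subgroup.subset_closure ⟨t, ht, rfl⟩))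
  rw [← mul_assoc] at h1
  rcases cs.length_mul_simple (g * y) t with h2 | h2
  · omega
  · omega

/-- a root of a parabolic subgroup mapped to a simple root is simple -/
theorem key (K : Finset B) (v : W) (hv : ∀ t ∈ K, 0 ≤ geo cs v (ee t)) (ρ : B → ℝ)
    (hs : ∀ j, j ∉ K → ρ j = 0) (hρ : 0 ≤ ρ ∨ ρ ≤ 0) (h2 : bil M ρ ρ = 2) (d : B)
    (hd : geo cs v ρ = ee d) : ∃ t ∈ K, ρ = ee t ∧ geo cs v (ee t) = ee d := by
  have e1 : ρ = ∑ t, ρ t • ee t := by
    ext j
    simp [Finset.sum_apply, Pi.single_apply]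
  have e2 : ∀ j, geo cs v ρ j = ∑ t, ρ t * geo cs v (ee t) j := by
    intro j
    conv_lhs => rw [e1]
    rw [map_sum, Finset.sum_apply]
    refine Finset.sum_congr rfl fun t _ => ?_
    rw [map_smul]
    rfl
  have hρ0 : 0 ≤ ρ := by
    rcases hρ with h | h
    · exact h
    · exfalso
      have h3 : geo cs v ρ d ≤ 0 := by
        rw [e2]
        apply Finset.sum_nonpos
        intro t _
        by_cases ht : t ∈ K
        · exact mul_nonpos_of_nonpos_of_nonneg (h t) (hv t ht d)
        · rw [hs t ht, zero_mul]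
      rw [hd, show (ee d : B → ℝ) d = 1 from Pi.single_eq_same _ _] at h3
      linarith
  have e3 : ∀ t, 0 < ρ t → geo cs v (ee t) = ee d := by
    intro t ht
    have htK : t ∈ K := by
      by_contra h
      rw [hs t h] at ht
      exact lt_irrefl _ ht
    have e4 : ∀ j, j ≠ d → geo cs v (ee t) j = 0 := by
      intro j hj
      have h3 : geo cs v ρ j = 0 := by
        rw [hd]
        exact Pi.single_eq_of_ne hj _
      rw [e2] at h3
      have h5 : ∀ s ∈ (Finset.univ : Finset B), 0 ≤ ρ s * geo cs v (ee s) j := by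
        intro s _
        by_cases hsK : s ∈ K
        · exact mul_nonneg (hρ0 s) (hv s hsK j)
        · rw [hs s hsK, zero_mul]
      have h4 := (Finset.sum_eq_zero_iff_of_nonneg h5).1 h3 t (Finset.mem_univ t)
      exact (mul_eq_zero.1 h4).resolve_left ht.ne'
    obtain ⟨c, hc, e5⟩ : ∃ c : ℝ, 0 ≤ c ∧ geo cs v (ee t) = c • ee d := by
      refine ⟨geo cs v (ee t) d, hv t htK d, ?_⟩
      ext j
      by_cases hj : j = d
      · subst hj
        rw [Pi.smul_apply, show (ee j : B → ℝ) j = 1 from Pi.single_eq_same _ _, smul_eq_mul,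
          mul_one]
      · rw [e4 j hj, Pi.smul_apply, show (ee d : B → ℝ) j = 0 from Pi.single_eq_of_ne hj _,
          smul_zero]
    have e6 := bil_geo cs v (ee t) (ee t)
    rw [e5, bil_smul_left, bil_smul_right, bil_self, bil_self] at e6
    have e8 : c = 1 := by nlinarith
    rw [e5, e8, one_smul]
  obtain ⟨t, ht⟩ : ∃ t, 0 < ρ t := by
    by_contra hcon
    push Not at hcon
    have h4 : ρ = 0 := funext fun t => le_antisymm (hcon t) (hρ0 t)
    rw [h4] at h2
    have h5 : bil M (0 : B → ℝ) 0 = 0 := by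
      have := bil_smul_left (M := M) 0 (0 : B → ℝ) 0
      rwa [zero_smul, zero_mul] at this
    rw [h5] at h2
    norm_num at h2
  have htK : t ∈ K := by
    by_contra h
    rw [hs t h] at ht
    exact lt_irrefl _ ht
  have e9 : ρ = ρ t • ee t := by
    ext j
    by_cases hj : j = t
    · subst hj
      rw [Pi.smul_apply, show (ee j : B → ℝ) j = 1 from Pi.single_eq_same _ _, smul_eq_mul,
        mul_one]
    · rw [Pi.smul_apply, show (ee t : B → ℝ) j = 0 from Pi.single_eq_of_ne hj _, smul_zero]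
      by_contra hne
      have h6 : 0 < ρ j := lt_of_le_of_ne (hρ0 j) (Ne.symm hne)
      apply hj
      apply ee_inj
      apply geo_injective_apply cs v
      rw [e3 j h6, e3 t ht]
  have e10 : ρ t = 1 := by
    obtain ⟨c, hc⟩ : ∃ c, c = ρ t := ⟨_, rfl⟩
    rw [← hc] at e9 ht ⊢
    rw [e9, bil_smul_left, bil_smul_right, bil_self] at h2
    nlinarith
  refine ⟨t, htK, ?_, e3 t ht⟩
  conv_lhs => rw [e9, e10, one_smul]

theorem two_of_bil {a b : B} (h : bil M (ee a) (ee b) = 0) : M a b = 2 := by
  rw [bil_ee_left, coroot_ee] at h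
  have h1 : cc M a b = 0 := by linarith
  have hab : a ≠ b := by
    rintro rfl
    rw [cc_self] at h1
    norm_num at h1
  by_contra h2
  exact cc_ne_zero hab h2 h1

theorem bil_of_two {a b : B} (h : M a b = 2) : bil M (ee a) (ee b) = 0 := by
  rw [bil_ee_left, coroot_ee]
  unfold cc
  rw [h]
  simp

theorem conj_of_geo {w : W} {a a' : B} (h : geo cs w (ee a) = ee a') :
    w * cs.simple a * w⁻¹ = cs.simple a' := by
  apply geo_injective cs
  apply LinearMap.ext
  intro v
  rw [geo_conj_simple, h, geo_simple, sg_apply, bil_ee_left]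

end

/-! ### parabolic subgroups -/

section

variable {B : Type} [Fintype B] [DecidableEq B] (M : CoxeterMatrix B)

/-- restriction of a Coxeter matrix -/
def sM (K : Finset B) : CoxeterMatrix {t // t ∈ K} where
  M := Matrix.of fun i j => M i.1 j.1
  isSymm := by
    ext i j
    simp only [Matrix.transpose_apply, Matrix.of_apply]
    exact M.symmetric _ _
  diagonal i := by simp
  off_diagonal i i' h := by
    simp only [Matrix.of_apply]
    exact M.off_diagonal _ _ (fun h' => h (Subtype.ext h'))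

theorem sM_apply (K : Finset B) (i j : {t // t ∈ K}) : sM M K i j = M i.1 j.1 := rfl

variable {M}
variable {W : Type} [Group W] (cs : CoxeterSystem M W)

/-- the inclusion of a parabolic subgroup -/
noncomputable def inc (K : Finset B) : (sM M K).Group →* W :=
  (sM M K).toCoxeterSystem.lift ⟨fun t => cs.simple t.1, fun i j => by
    show (cs.simple i.1 * cs.simple j.1) ^ (sM M K i j) = 1
    rw [sM_apply]
    exact cs.simple_mul_simple_pow i.1 j.1⟩

theorem inc_simple (K : Finset B) (t : {t // t ∈ K}) :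
    inc cs K ((sM M K).toCoxeterSystem.simple t) = cs.simple t.1 := by
  unfold inc
  exact CoxeterSystem.lift_apply_simple _ _ t

theorem inc_surj (K : Finset B) {x : W} (hx : x ∈ WK cs K) : ∃ y, inc cs K y = x := by
  have h1 : WK cs K ≤ (inc cs K).range := by
    unfold WK
    rw [Subgroup.closure_le]
    rintro _ ⟨t, ht, rfl⟩
    exact ⟨(sM M K).toCoxeterSystem.simple ⟨t, ht⟩, inc_simple cs K ⟨t, ht⟩⟩
  exact h1 hx

/-- extension by zero -/
def ext0 (K : Finset B) (v : {t // t ∈ K} → ℝ) : B → ℝ := ∑ t : {t // t ∈ K}, v t • ee t.1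

theorem ext0_ee (K : Finset B) (t : {t // t ∈ K}) : ext0 K (ee t) = ee t.1 := by
  unfold ext0
  rw [Finset.sum_eq_single t]
  · rw [show (ee t : {t // t ∈ K} → ℝ) t = 1 from Pi.single_eq_same _ _, one_smul]
  · intro s _ hs
    rw [show (ee t : {t // t ∈ K} → ℝ) s = 0 from Pi.single_eq_of_ne hs _, zero_smul]
  · intro h
    exact absurd (Finset.mem_univ _) h

theorem ext0_inj (K : Finset B) {v w : {t // t ∈ K} → ℝ} (h : ext0 K v = ext0 K w) : v = w := by
  have h1 : ∀ (v : {t // t ∈ K} → ℝ) (s : {t // t ∈ K}), ext0 K v s.1 = v s := by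
    intro v s
    unfold ext0
    rw [Finset.sum_apply, Finset.sum_eq_single s]
    · rw [Pi.smul_apply, show (ee s.1 : B → ℝ) s.1 = 1 from Pi.single_eq_same _ _, smul_eq_mul,
        mul_one]
    · intro t _ ht
      rw [Pi.smul_apply, show (ee t.1 : B → ℝ) s.1 = 0 from
        Pi.single_eq_of_ne (fun h => ht (Subtype.ext h.symm)) _, smul_zero]
    · intro h
      exact absurd (Finset.mem_univ _) h
  funext s
  rw [← h1 v s, h, h1 w s]

theorem ext0_sub (K : Finset B) (v w : {t // t ∈ K} → ℝ) :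
    ext0 K (v - w) = ext0 K v - ext0 K w := by
  unfold ext0
  rw [← Finset.sum_sub_distrib]
  refine Finset.sum_congr rfl fun t _ => ?_
  rw [Pi.sub_apply, sub_smul]

theorem ext0_smul (K : Finset B) (c : ℝ) (v : {t // t ∈ K} → ℝ) :
    ext0 K (c • v) = c • ext0 K v := by
  unfold ext0
  rw [Finset.smul_sum]
  refine Finset.sum_congr rfl fun t _ => ?_
  rw [Pi.smul_apply, smul_assoc]

theorem coroot_ext0 (K : Finset B) (i : {t // t ∈ K}) (v : {t // t ∈ K} → ℝ) :
    coroot M i.1 (ext0 K v) = coroot (sM M K) i v := by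
  unfold ext0
  rw [map_sum, coroot_apply]
  refine Finset.sum_congr rfl fun t _ => ?_
  rw [map_smul, coroot_ee, smul_eq_mul, mul_comm]
  rfl

theorem geo_ext0 (K : Finset B) (y : (sM M K).Group) : ∀ v : {t // t ∈ K} → ℝ,
    ext0 K (geo (sM M K).toCoxeterSystem y v) = geo cs (inc cs K y) (ext0 K v) := by
  induction y using (sM M K).toCoxeterSystem.simple_induction_left with
  | one => intro v; simp
  | mul_simple_left y i ih =>
    intro v
    rw [map_mul, map_mul, map_mul, Module.End.mul_apply, Module.End.mul_apply, inc_simple,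
      geo_simple, geo_simple, ← ih, sg_apply, sg_apply, ext0_sub, ext0_smul, ext0_ee, coroot_ext0]

theorem eqv_map (K : Finset B) {p q : {t // t ∈ K} × {t // t ∈ K}} (h : Eqv (sM M K) p q) :
    Eqv M (p.1.1, p.2.1) (q.1.1, q.2.1) := by
  unfold Eqv at h
  induction h with
  | rel p q h =>
    apply Relation.EqvGen.rel
    cases h with
    | left h1 h2 h3 => exact Mv.left h1 h2 h3
    | right h1 h2 h3 => exact Mv.right h1 h2 h3
    | swap h1 h2 h3 => exact Mv.swap h1 h2 h3
  | refl p => exact Relation.EqvGen.refl _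
  | symm p q _ h => exact Relation.EqvGen.symm _ _ h
  | trans p q r _ _ h1 h2 => exact Relation.EqvGen.trans _ _ _ h1 h2

/-- rank three -/
theorem rank3 (h3 : S_r3) {a b c a' b' : B} (hac : a ≠ c) (hbc : b ≠ c) (hab : M a b = 2)
    {x : W} (hx : x ∈ WK cs {a, b, c}) (ha' : a' ∈ ({a, b, c} : Finset B))
    (hb' : b' ∈ ({a, b, c} : Finset B)) (ha : geo cs x (ee a) = ee a')
    (hb : geo cs x (ee b) = ee b') : Eqv M (a, b) (a', b') := by
  obtain ⟨K, hK⟩ : ∃ K : Finset B, K = {a, b, c} := ⟨_, rfl⟩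
  have haK : a ∈ K := by rw [hK]; simp
  have hbK : b ∈ K := by rw [hK]; simp
  have hcK : c ∈ K := by rw [hK]; simp
  have hK' : ∀ t ∈ K, t = a ∨ t = b ∨ t = c := by
    intro t ht
    rw [hK] at ht
    simpa using ht
  rw [← hK] at hx ha' hb'
  obtain ⟨y, hy⟩ := inc_surj cs K hx
  have e1 : geo (sM M K).toCoxeterSystem y (ee ⟨a, haK⟩) = ee ⟨a', ha'⟩ := by
    apply ext0_inj K
    rw [geo_ext0 cs, hy, ext0_ee, ext0_ee]
    exact ha
  have e2 : geo (sM M K).toCoxeterSystem y (ee ⟨b, hbK⟩) = ee ⟨b', hb'⟩ := by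
    apply ext0_inj K
    rw [geo_ext0 cs, hy, ext0_ee, ext0_ee]
    exact hb
  have h := h3 {t // t ∈ K} (sM M K) (sM M K).Group (sM M K).toCoxeterSystem ⟨a, haK⟩ ⟨b, hbK⟩
    ⟨c, hcK⟩ ⟨a', ha'⟩ ⟨b', hb'⟩ y (fun t => by
      rcases hK' t.1 t.2 with h | h | h
      · exact Or.inl (Subtype.ext h)
      · exact Or.inr (Or.inl (Subtype.ext h))
      · exact Or.inr (Or.inr (Subtype.ext h))) (fun h => hac (congrArg Subtype.val h))
      (fun h => hbc (congrArg Subtype.val h)) hab (conj_of_geo _ e1) (conj_of_geo _ e2)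
  exact eqv_map K h

/-- Part A -/
theorem partA (h3 : S_r3) (n : ℕ) : ∀ (g : W) (a b d e : B), cs.length g = n → M a b = 2 →
    geo cs g (ee a) = ee d → geo cs g (ee b) = ee e → Eqv M (a, b) (d, e) := by
  induction n using Nat.strong_induction_on with
  | _ n ih =>
    intro g a b d e hn hab ha hb
    by_cases hg : g = 1
    · subst hg
      rw [map_one, Module.End.one_apply] at ha hb
      rw [ee_inj ha, ee_inj hb]
      exact Relation.EqvGen.refl _
    · obtain ⟨c, hc⟩ := cs.exists_rightDescent_of_ne_one hg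
      have hc' : cs.length (g * cs.simple c) + 1 = cs.length g := cs.isRightDescent_iff.mp hc
      have hcn : geo cs g (ee c) ≤ 0 := geo_nonpos cs g c (by omega)
      have hac : a ≠ c := by
        rintro rfl
        rw [ha] at hcn
        exact ee_not_nonpos d hcn
      have hbc : b ≠ c := by
        rintro rfl
        rw [hb] at hcn
        exact ee_not_nonpos e hcn
      obtain ⟨v, x, hgx, hx, hmin, hasc⟩ := min_rep cs {a, b, c} g
      have hlen : cs.length v < n := by
        have h1 := hmin (cs.simple c) (Subgroup.subset_closure ⟨c, by simp, rfl⟩)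
        omega
      have hv : ∀ t ∈ ({a, b, c} : Finset B), 0 ≤ geo cs v (ee t) := fun t ht =>
        geo_nonneg cs v t (hasc t ht)
      have hsupp : ∀ s ∈ ({a, b, c} : Finset B), ∀ j, j ∉ ({a, b, c} : Finset B) →
          geo cs x (ee s) j = 0 := by
        intro s hs j hj
        rw [geo_supp cs _ hx _ hj]
        exact Pi.single_eq_of_ne (by rintro rfl; exact hj hs) _
      have haK : a ∈ ({a, b, c} : Finset B) := by simp
      have hbK : b ∈ ({a, b, c} : Finset B) := by simp
      rw [hgx, map_mul, Module.End.mul_apply] at ha hb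
      obtain ⟨a', ha', ra, sa⟩ := key cs {a, b, c} v hv (geo cs x (ee a)) (hsupp a haK)
        (geo_sign cs x a) (by rw [bil_geo, bil_self]) d ha
      obtain ⟨b', hb', rb, sb⟩ := key cs {a, b, c} v hv (geo cs x (ee b)) (hsupp b hbK)
        (geo_sign cs x b) (by rw [bil_geo, bil_self]) e hb
      have h1 : Eqv M (a, b) (a', b') := rank3 cs h3 hac hbc hab hx ha' hb' ra rb
      have h2 : M a' b' = 2 := by
        apply two_of_bil
        rw [← ra, ← rb, bil_geo]
        exact bil_of_two hab
      exact Relation.EqvGen.trans _ _ _ h1 (ih _ hlen v a' b' d e rfl h2 sa sb)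

end

open Pool.Agent.TH901.H2A in
theorem pair_of (h : Pool.Agent.TH901.H2A.S_r3) : Pool.Agent.TH901.H2A.S_pair := by
  intro B _ _ M W _ cs a b i j g hab hij hga hgb
  have hcl : ({cs.simple i, cs.simple j} : Set W) = cs.simple '' (({i, j} : Finset B) : Set B) := by
    rw [Finset.coe_insert, Finset.coe_singleton, Set.image_pair]
  rw [hcl] at hga hgb
  obtain ⟨v, x, hgx, hx, _, hasc⟩ := min_rep cs {i, j} g⁻¹
  -- `g⁻¹ = v x`, `h = x g = v⁻¹`
  have hv : ∀ t ∈ ({i, j} : Finset B), 0 ≤ geo cs v (ee t) := fun t ht =>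
    geo_nonneg cs v t (hasc t ht)
  have hvg : v⁻¹ = x * g := by
    have : v = g⁻¹ * x⁻¹ := by rw [hgx]; group
    rw [this]
    group
  have step : ∀ s : B, g * cs.simple s * g⁻¹ ∈ WK cs {i, j} →
      ∃ t ∈ ({i, j} : Finset B), geo cs v⁻¹ (ee s) = ee t := by
    intro s hs
    have hr : v⁻¹ * cs.simple s * (v⁻¹)⁻¹ ∈ WK cs {i, j} := by
      have : v⁻¹ * cs.simple s * (v⁻¹)⁻¹ = x * (g * cs.simple s * g⁻¹) * x⁻¹ := by
        rw [hvg]
        group
      rw [this]
      exact mul_mem (mul_mem hx hs) (inv_mem hx)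
    have hsupp : ∀ k, k ∉ ({i, j} : Finset B) → geo cs v⁻¹ (ee s) k = 0 := by
      intro k hk
      have h1 := geo_supp cs _ hr (geo cs v⁻¹ (ee s)) hk
      rw [geo_conj_simple, Pi.sub_apply, Pi.smul_apply, bil_geo, bil_self, smul_eq_mul] at h1
      linarith
    obtain ⟨t, ht, h1, _⟩ := key cs {i, j} v hv (geo cs v⁻¹ (ee s)) hsupp (geo_sign cs v⁻¹ s)
      (by rw [bil_geo, bil_self]) s (geo_apply_inv cs v _)
    exact ⟨t, ht, h1⟩
  obtain ⟨ta, hta, ea⟩ := step a hga
  obtain ⟨tb, htb, eb⟩ := step b hgb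
  have hne : ta ≠ tb := by
    rintro rfl
    have h1 : a = b := ee_inj (geo_injective_apply cs v⁻¹ (ea.trans eb.symm))
    rw [h1, M.diagonal] at hab
    norm_num at hab
  have hE : Eqv M (a, b) (ta, tb) := partA cs h _ v⁻¹ a b ta tb rfl hab ea eb
  have h2 : M ta tb = 2 := by
    apply two_of_bil
    rw [← ea, ← eb, bil_geo]
    exact bil_of_two hab
  have hMij : M i j = 2 := by
    simp only [Finset.mem_insert, Finset.mem_singleton] at hta htb
    rcases hta with rfl | rfl <;> rcases htb with rfl | rfl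
    · exact absurd rfl hne
    · exact h2
    · rw [M.symmetric]
      exact h2
    · exact absurd rfl hne
  have hcomm : cs.simple i * cs.simple j = cs.simple j * cs.simple i := by
    have h3 := cs.simple_mul_simple_pow i j
    rw [hMij, pow_two] at h3
    have h4 := cs.simple_mul_simple_self i
    have h5 := cs.simple_mul_simple_self j
    calc cs.simple i * cs.simple j = (cs.simple i * cs.simple j) *
          (cs.simple i * cs.simple j) * (cs.simple i * cs.simple j)⁻¹ := by group
      _ = (cs.simple i * cs.simple j)⁻¹ := by rw [h3, one_mul]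
      _ = cs.simple j * cs.simple i := by rw [mul_inv_rev, cs.inv_simple, cs.inv_simple]
  -- `x` commutes with `s_i`, `s_j`
  have hxc : ∀ t ∈ ({i, j} : Finset B), ∀ y ∈ WK cs {i, j}, Commute y (cs.simple t) := by
    intro t ht y hy
    unfold WK at hy
    induction hy using Subgroup.closure_induction with
    | mem y hy =>
      obtain ⟨s, hs, rfl⟩ := hy
      simp only [Finset.coe_insert, Finset.coe_singleton, Set.mem_insert_iff,
        Set.mem_singleton_iff] at hs
      simp only [Finset.mem_insert, Finset.mem_singleton] at ht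
      rcases ht with rfl | rfl <;> rcases hs with rfl | rfl
      · exact Commute.refl _
      · exact hcomm.symm
      · exact hcomm
      · exact Commute.refl _
    | one => exact Commute.one_left _
    | mul y z _ _ h1 h2 => exact h1.mul_left h2
    | inv y _ h1 => exact h1.inv_left
  have fin : ∀ s t : B, t ∈ ({i, j} : Finset B) → geo cs v⁻¹ (ee s) = ee t →
      g * cs.simple s * g⁻¹ = cs.simple t := by
    intro s t ht hs
    have h1 := conj_of_geo cs hs
    have h3 : g * cs.simple s * g⁻¹ = x⁻¹ * (v⁻¹ * cs.simple s * (v⁻¹)⁻¹) * x := by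
      rw [hvg]
      group
    rw [h3, h1]
    have h4 := (hxc t ht x⁻¹ (inv_mem hx)).eq
    rw [h4]
    group
  refine ⟨hMij, ?_⟩
  simp only [Finset.mem_insert, Finset.mem_singleton] at hta htb
  rcases hta with rfl | rfl <;> rcases htb with rfl | rfl
  · exact absurd rfl hne
  · exact Or.inl ⟨fin a _ (by simp) ea, fin b _ (by simp) eb, hE⟩
  · exact Or.inr ⟨fin a _ (by simp) ea, fin b _ (by simp) eb, hE⟩
  · exact absurd rfl hne

end Pool.Agent.TH111.H2A
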